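import Pool.Agent.H85.AECT.Compact

set_option autoImplicit false

/-!
# Automorphism groups of closures: definitions and counting
-/

open FirstOrder FirstOrder.Language Cardinal

namespace Pool.Agent.H81.FB

universe w

open Pool.Agent.H85.AECT Pool.Agent.H85.AECT.AEC

variable {L : FirstOrder.Language.{w, w}} {K : AEC L}

/-- The automorphisms of the substructure `C` of `N` which fix every element of `C` lying
in `A`. -/
def Auts {N : Type w} [L.Structure N] (C : L.Substructure N) (A : Set N) : Set (C ≃[L] C) :=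
  {g | ∀ x : C, (x : N) ∈ A → g x = x}

/-- `FewAuts K κ χ μ`: for all strong substructures `M` of `N` of size at most `χ` and every `a`
in `N` there is a set `X` of fewer than `κ` elements of the closure `C` of `M ∪ {a}` such that
fewer than `μ` automorphisms of `C` fix `M ∪ {a} ∪ X` pointwise. -/
def FewAuts (K : AEC L) (κ χ μ : Cardinal.{w}) : Prop :=
  ∀ (N : Type w) [L.Structure N] (M : L.Substructure N) (a : N), K.Strong N M → #M ≤ χ →
    ∃ X : Set N, X ⊆ K.cl (insert a (M : Set N)) ∧ #X < κ ∧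
      #(Auts (K.cl (insert a (M : Set N))) (insert a (M : Set N) ∪ X)) < μ

/-- Closures over models of size at most `θ` add fewer than `θ` elements: for all strong
substructures `M` of `N` of size at most `θ` and every `a` in `N` fewer than `θ` elements of the
closure of `M ∪ {a}` are outside `M`. -/
def SmallClosures (K : AEC L) (θ : Cardinal.{w}) : Prop :=
  ∀ (N : Type w) [L.Structure N] (M : L.Substructure N) (a : N), K.Strong N M → #M ≤ θ →
    #({x : N | x ∈ K.cl (insert a (M : Set N)) ∧ x ∉ M} : Set N) < θ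

/-- For all strong substructures `M` of `N` of size at most `χ` and every `a` in `N` the closure of
`M ∪ {a}` has at most `θ` automorphisms over `M ∪ {a}`. -/
def AutBound (K : AEC L) (χ θ : Cardinal.{w}) : Prop :=
  ∀ (N : Type w) [L.Structure N] (M : L.Substructure N) (a : N), K.Strong N M → #M ≤ χ →
    #(Auts (K.cl (insert a (M : Set N))) (insert a (M : Set N))) ≤ θ

/-- For all strong substructures `M` of `N` of size at most `χ` and every `a` in `N` the closure of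
`M ∪ {a}` has fewer than `χ ^ ℵ₀` automorphisms over `M ∪ {a}`. -/
def AutLt (K : AEC L) (χ : Cardinal.{w}) : Prop :=
  ∀ (N : Type w) [L.Structure N] (M : L.Substructure N) (a : N), K.Strong N M → #M ≤ χ →
    #(Auts (K.cl (insert a (M : Set N))) (insert a (M : Set N))) < χ ^ ℵ₀

/-- For all strong substructures `M` of `N` of size at most `χ` and every `a` in `N` there is a set
`X` of fewer than `κ` elements of the closure `C` of `M ∪ {a}` such that fewer than `χ`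
automorphisms of `C` fix `M ∪ {a} ∪ X` pointwise. -/
def OverLt (K : AEC L) (κ χ : Cardinal.{w}) : Prop :=
  ∀ (N : Type w) [L.Structure N] (M : L.Substructure N) (a : N), K.Strong N M → #M ≤ χ →
    ∃ X : Set N, X ⊆ K.cl (insert a (M : Set N)) ∧ #X < κ ∧
      #(Auts (K.cl (insert a (M : Set N))) (insert a (M : Set N) ∪ X)) < χ

theorem mk_map_le {M N : Type w} [L.Structure M] [L.Structure N] (f : M ↪[L] N)
    {χ : Cardinal.{w}} {Q : L.Substructure M} (hQc : #Q ≤ χ) :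
    #(Q.map f.toHom : L.Substructure N) ≤ χ := by
  refine le_trans ?_ hQc
  exact Cardinal.mk_image_le (f := f) (s := (Q : Set M))

section context

variable {M N₁ N₂ : Type w} [L.Structure M] [L.Structure N₁] [L.Structure N₂]
  {f₁ : M ↪[L] N₁} {a₁ : N₁} {f₂ : M ↪[L] N₂} {a₂ : N₂} {κ χ θ : Cardinal.{w}}

theorem comp_mem_auts {X : Set N₁} {Q : L.Substructure M}
    {e e' : K.clOver f₁ a₁ Q ≃[L] K.clOver f₂ a₂ Q}
    (he : e ∈ K.Isos f₁ a₁ f₂ a₂ Q) (he' : e' ∈ K.Isos f₁ a₁ f₂ a₂ Q)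
    (hX : ∀ x : K.clOver f₁ a₁ Q, (x : N₁) ∈ X → e' x = e x) :
    e.symm.comp e' ∈ Auts (K.clOver f₁ a₁ Q) (insert a₁ (f₁ '' (Q : Set M)) ∪ X) := by
  intro x hx
  have h2 : e' x = e x := by
    rcases hx with hx | hx
    · apply Subtype.ext
      rcases hx with hx | ⟨m, hm, hx⟩
      · rw [he.2 x hx, he'.2 x hx]
      · rw [he.1 m hm x hx.symm, he'.1 m hm x hx.symm]
    · exact hX x hx
  show e.symm (e' x) = x
  rw [h2]
  exact Language.Equiv.symm_apply_apply _ _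

/-- There are at most as many isomorphisms of closures as automorphisms. -/
theorem mk_isos_le (Q : L.Substructure M) :
    #(K.Isos f₁ a₁ f₂ a₂ Q) ≤
      #(Auts (K.clOver f₁ a₁ Q) (insert a₁ (f₁ '' (Q : Set M)))) := by
  classical
  rcases Set.eq_empty_or_nonempty (K.Isos f₁ a₁ f₂ a₂ Q) with hemp | ⟨e₀, he₀⟩
  · rw [hemp]
    simp
  · have h3 : ∀ e : K.Isos f₁ a₁ f₂ a₂ Q, e₀.symm.comp e.1 ∈
        Auts (K.clOver f₁ a₁ Q) (insert a₁ (f₁ '' (Q : Set M))) := by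
      intro e x hx
      exact comp_mem_auts (X := ∅) he₀ e.2 (fun x hx => absurd hx (Set.notMem_empty _)) x
        (Or.inl hx)
    refine Cardinal.mk_le_of_injective (f := fun e : K.Isos f₁ a₁ f₂ a₂ Q =>
      (⟨e₀.symm.comp e.1, h3 e⟩ :
        Auts (K.clOver f₁ a₁ Q) (insert a₁ (f₁ '' (Q : Set M))))) ?_
    intro e e' hee
    have h4 : e₀.symm.comp e.1 = e₀.symm.comp e'.1 := congrArg Subtype.val hee
    apply Subtype.ext
    apply Language.Equiv.ext
    intro x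
    have h5 : e₀.symm (e.1 x) = e₀.symm (e'.1 x) :=
      congrArg (fun g : K.clOver f₁ a₁ Q ≃[L] K.clOver f₁ a₁ Q => g x) h4
    exact e₀.symm.injective h5

theorem isos_le_of_bound (hA : AutBound K χ θ) (hf₁ : K.StrongEmb f₁) (Q : K.Sml M χ) :
    #(K.Isos f₁ a₁ f₂ a₂ Q.1) ≤ θ :=
  (mk_isos_le Q.1).trans (hA N₁ (Q.1.map f₁.toHom) a₁ (hf₁.map Q.2.1) (mk_map_le f₁ Q.2.2))

/-- `e'` extends `e`. -/
def Extends {Q R : L.Substructure M} (e : K.clOver f₁ a₁ Q ≃[L] K.clOver f₂ a₂ Q)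
    (e' : K.clOver f₁ a₁ R ≃[L] K.clOver f₂ a₂ R) : Prop :=
  ∀ (x : K.clOver f₁ a₁ Q) (y : K.clOver f₁ a₁ R), (x : N₁) = y → (e x : N₂) = e' y

theorem Extends.mid {Q R S : L.Substructure M} (hRS : R ≤ S)
    {e : K.clOver f₁ a₁ Q ≃[L] K.clOver f₂ a₂ Q}
    {e' : K.clOver f₁ a₁ R ≃[L] K.clOver f₂ a₂ R}
    {e'' : K.clOver f₁ a₁ S ≃[L] K.clOver f₂ a₂ S}
    (h1 : Extends e e'') (h2 : Extends e' e'') : Extends e e' := by
  intro x y hxy
  rw [h1 x ⟨y, clOver_mono hRS y.2⟩ hxy, h2 y ⟨y, clOver_mono hRS y.2⟩ rfl]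

theorem Extends.trans {Q R S : L.Substructure M} (hQR : Q ≤ R)
    {e : K.clOver f₁ a₁ Q ≃[L] K.clOver f₂ a₂ Q}
    {e' : K.clOver f₁ a₁ R ≃[L] K.clOver f₂ a₂ R}
    {e'' : K.clOver f₁ a₁ S ≃[L] K.clOver f₂ a₂ S}
    (h1 : Extends e e') (h2 : Extends e' e'') : Extends e e'' := by
  intro x z hxz
  rw [h1 x ⟨x, clOver_mono hQR x.2⟩ rfl, h2 ⟨x, clOver_mono hQR x.2⟩ z hxz]

theorem Extends.rfl' {Q : L.Substructure M} (e : K.clOver f₁ a₁ Q ≃[L] K.clOver f₂ a₂ Q) :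
    Extends e e := by
  intro x y hxy
  have : x = y := Subtype.ext hxy
  rw [this]

theorem Extends.unique {Q R : L.Substructure M} (hQR : Q ≤ R)
    {e₁ e₂ : K.clOver f₁ a₁ Q ≃[L] K.clOver f₂ a₂ Q}
    {e' : K.clOver f₁ a₁ R ≃[L] K.clOver f₂ a₂ R}
    (h1 : Extends e₁ e') (h2 : Extends e₂ e') : e₁ = e₂ := by
  apply Language.Equiv.ext
  intro x
  apply Subtype.ext
  rw [h1 x ⟨x, clOver_mono hQR x.2⟩ rfl, h2 x ⟨x, clOver_mono hQR x.2⟩ rfl]

/-- Coherent isomorphisms of closures over a directed family of models glue. -/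
theorem glue {ι : Type*} [Preorder ι] [IsDirectedOrder ι] [Nonempty ι]
    (Q : ι → L.Substructure M) (T : L.Substructure M)
    (hle : ∀ i, Q i ≤ T) (hmono : ∀ i j, i ≤ j → Q i ≤ Q j)
    (hT : ∀ m ∈ T, ∃ i, m ∈ Q i)
    (hT₁ : ∀ x ∈ K.clOver f₁ a₁ T, ∃ i, x ∈ K.clOver f₁ a₁ (Q i))
    (hT₂ : ∀ x ∈ K.clOver f₂ a₂ T, ∃ i, x ∈ K.clOver f₂ a₂ (Q i))
    (e : (i : ι) → (K.clOver f₁ a₁ (Q i) ≃[L] K.clOver f₂ a₂ (Q i)))
    (he : ∀ i, e i ∈ K.Isos f₁ a₁ f₂ a₂ (Q i))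
    (hcoh : ∀ i j, i ≤ j → Extends (e i) (e j)) :
    ∃ u ∈ K.Isos f₁ a₁ f₂ a₂ T, ∀ i, Extends (e i) u := by
  classical
  have hcov : ∀ s : Finset (K.clOver f₁ a₁ T), ∃ i, ∀ x ∈ s, (x : N₁) ∈ K.clOver f₁ a₁ (Q i) := by
    intro s
    induction s using Finset.induction_on with
    | empty => exact ⟨Classical.arbitrary ι, fun x hx => absurd hx (Finset.notMem_empty x)⟩
    | insert x s _ ih =>
      obtain ⟨i, hi⟩ := ih
      obtain ⟨j, hj⟩ := hT₁ x.1 x.2
      obtain ⟨k, hik, hjk⟩ := exists_ge_ge i j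
      refine ⟨k, ?_⟩
      intro y hy
      rcases Finset.mem_insert.mp hy with rfl | hy'
      · exact clOver_mono (hmono _ _ hjk) hj
      · exact clOver_mono (hmono _ _ hik) (hi y hy')
  have hT₁' : ∀ x : K.clOver f₁ a₁ T, ∃ i, (x : N₁) ∈ K.clOver f₁ a₁ (Q i) := fun x => hT₁ x.1 x.2
  choose S hxS using hT₁'
  obtain ⟨F, hF⟩ : ∃ F : K.clOver f₁ a₁ T → N₂,
      ∀ i, ∀ (x : K.clOver f₁ a₁ T) (y : K.clOver f₁ a₁ (Q i)), (y : N₁) = x →
        (e i y : N₂) = F x := by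
    refine ⟨fun x => e (S x) ⟨x, hxS x⟩, ?_⟩
    intro i x y hxy
    obtain ⟨k, hSk, hik⟩ := exists_ge_ge (S x) i
    have hxk : (x : N₁) ∈ K.clOver f₁ a₁ (Q k) := clOver_mono (hmono _ _ hSk) (hxS x)
    have h1 := hcoh (S x) k hSk ⟨x, hxS x⟩ ⟨x, hxk⟩ rfl
    have h2 := hcoh i k hik y ⟨x, hxk⟩ hxy
    show (e i y : N₂) = e (S x) ⟨x, hxS x⟩
    rw [h1, h2]
  have hmem : ∀ x, F x ∈ K.clOver f₂ a₂ T := by
    intro x
    rw [← hF (S x) x ⟨x, hxS x⟩ rfl]
    exact clOver_mono (hle _) (e (S x) ⟨x, hxS x⟩).2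
  let φ : K.clOver f₁ a₁ T → K.clOver f₂ a₂ T := fun x => ⟨F x, hmem x⟩
  have hinj : Function.Injective φ := by
    intro x y hxy
    have hxy' : F x = F y := congrArg Subtype.val hxy
    obtain ⟨i, hs⟩ := hcov {x, y}
    have h1 := hF i x ⟨x, hs x (by simp)⟩ rfl
    have h2 := hF i y ⟨y, hs y (by simp)⟩ rfl
    have h3 : e i ⟨x, hs x (by simp)⟩ = e i ⟨y, hs y (by simp)⟩ :=
      Subtype.ext (by rw [h1, h2, hxy'])
    have h4 := (e i).injective h3
    exact Subtype.ext (congrArg (fun z : K.clOver f₁ a₁ (Q i) => (z : N₁)) h4)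
  have hsurj : Function.Surjective φ := by
    intro y
    obtain ⟨i, hy⟩ := hT₂ y.1 y.2
    obtain ⟨c, hc⟩ : ∃ c, e i c = ⟨(y : N₂), hy⟩ := ⟨(e i).symm ⟨y, hy⟩, by simp⟩
    have hct : (c : N₁) ∈ K.clOver f₁ a₁ T := clOver_mono (hle i) c.2
    refine ⟨⟨c, hct⟩, ?_⟩
    have h1 := hF i ⟨c, hct⟩ c rfl
    apply Subtype.ext
    show F ⟨c, hct⟩ = y
    rw [← h1, hc]
  refine ⟨⟨_root_.Equiv.ofBijective φ ⟨hinj, hsurj⟩, ?_, ?_⟩, ⟨?_, ?_⟩, ?_⟩
  · intro n G x
    let s : Finset (K.clOver f₁ a₁ T) :=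
      insert (Structure.funMap G x) (Finset.univ.image x)
    obtain ⟨i, hs⟩ := hcov s
    have hx : ∀ k, x k ∈ s := fun k =>
      Finset.mem_insert_of_mem (Finset.mem_image_of_mem _ (Finset.mem_univ k))
    let y : Fin n → K.clOver f₁ a₁ (Q i) := fun k => ⟨x k, hs _ (hx k)⟩
    have h1 : ((Structure.funMap G y : K.clOver f₁ a₁ (Q i)) : N₁) =
        ((Structure.funMap G x : K.clOver f₁ a₁ T) : N₁) := rfl
    have h2 := hF i _ (Structure.funMap G y) h1
    have h3 : e i (Structure.funMap G y) = Structure.funMap G (e i ∘ y) := (e i).map_fun G y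
    apply Subtype.ext
    show F (Structure.funMap G x) = _
    rw [← h2, h3]
    show Structure.funMap G (fun k => ((e i (y k) : K.clOver f₂ a₂ (Q i)) : N₂)) =
      Structure.funMap G (fun k => F (x k))
    congr 1
    funext k
    exact hF i _ (y k) rfl
  · intro n G x
    let s : Finset (K.clOver f₁ a₁ T) := Finset.univ.image x
    obtain ⟨i, hs⟩ := hcov s
    have hx : ∀ k, x k ∈ s := fun k => Finset.mem_image_of_mem _ (Finset.mem_univ k)
    let y : Fin n → K.clOver f₁ a₁ (Q i) := fun k => ⟨x k, hs _ (hx k)⟩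
    have h3 : Structure.RelMap G (e i ∘ y) ↔ Structure.RelMap G y := (e i).map_rel G y
    have h4 : (fun k => ((e i (y k) : K.clOver f₂ a₂ (Q i)) : N₂)) = fun k => F (x k) := by
      funext k
      exact hF i _ (y k) rfl
    have h5 : Structure.RelMap G (fun k => ((e i (y k) : K.clOver f₂ a₂ (Q i)) : N₂)) ↔
        Structure.RelMap G (fun k => (x k : N₁)) := h3
    rw [h4] at h5
    exact h5
  · intro m hm x hx
    obtain ⟨j, hj⟩ := hT m hm
    obtain ⟨i, hSi, hji⟩ := exists_ge_ge (S x) j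
    have hxi : (x : N₁) ∈ K.clOver f₁ a₁ (Q i) := clOver_mono (hmono _ _ hSi) (hxS x)
    have h1 := hF i x ⟨x, hxi⟩ rfl
    have h2 := (he i).1 m (hmono _ _ hji hj) ⟨x, hxi⟩ hx
    show F x = f₂ m
    rw [← h1, h2]
  · intro x hx
    have h1 := hF (S x) x ⟨x, hxS x⟩ rfl
    have h2 := (he (S x)).2 ⟨x, hxS x⟩ hx
    show F x = a₂
    rw [← h1, h2]
  · intro i x y hxy
    exact hF i y x hxy

end context

end Pool.Agent.H81.FB
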