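import Pool.Agent.H81.FB.Pers

set_option autoImplicit false

/-!
# Many persistent automorphisms
-/

open FirstOrder FirstOrder.Language Cardinal

namespace Pool.Agent.H81.FB

universe w

open Pool.Agent.H85.AECT Pool.Agent.H85.AECT.AEC

variable {L : FirstOrder.Language.{w, w}} {K : AEC L}

theorem exists_bound_of_lt_cof {θ : Cardinal.{w}} (S : Set θ.ord.ToType)
    (hS : #S < θ.ord.cof) : ∃ b : θ.ord.ToType, ∀ s ∈ S, s < b := by
  have h1 : Order.cof θ.ord.ToType = θ.ord.cof := Ordinal.cof_toType _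
  have h2 : ¬ IsCofinal S := by
    intro h
    have := Order.cof_le h
    rw [h1] at this
    exact absurd this (not_le.mpr hS)
  unfold IsCofinal at h2
  push Not at h2
  exact h2

section context

variable {M N₁ N₂ : Type w} [L.Structure M] [L.Structure N₁] [L.Structure N₂]
  {f₁ : M ↪[L] N₁} {a₁ : N₁} {f₂ : M ↪[L] N₂} {a₂ : N₂} {χ θ : Cardinal.{w}}

variable (K f₁ a₁ f₂ a₂ χ θ) in
/-- Uniqueness of persistent extensions fails above every small model. -/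
def Bad : Prop :=
  ∀ Q₀ : K.Sml M χ, ∃ Q : K.Sml M χ, Q₀.1 ≤ Q.1 ∧
    ∃ e ∈ Pers (f₁ := f₁) (a₁ := a₁) (f₂ := f₂) (a₂ := a₂) θ Q,
    ∃ e' ∈ Pers (f₁ := f₁) (a₁ := a₁) (f₂ := f₂) (a₂ := a₂) θ Q,
      (∀ x : K.clOver f₁ a₁ Q.1, (x : N₁) ∈ K.clOver f₁ a₁ Q₀.1 → e x = e' x) ∧ e ≠ e'

/-- The conclusion of the chain construction. -/
structure Block (Q₀ Q : K.Sml M χ) where
  /-- the chain -/
  P : χ.ord.ToType → K.Sml M χ
  /-- persistent isomorphisms -/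
  E : χ.ord.ToType → (K.clOver f₁ a₁ Q.1 ≃[L] K.clOver f₂ a₂ Q.1)
  /-- persistent isomorphisms -/
  E' : χ.ord.ToType → (K.clOver f₁ a₁ Q.1 ≃[L] K.clOver f₂ a₂ Q.1)
  le : Q₀.1 ≤ Q.1
  le_P : ∀ i, Q₀.1 ≤ (P i).1
  mono : ∀ i j, i ≤ j → (P i).1 ≤ (P j).1
  cover : ∀ x ∈ K.clOver f₁ a₁ Q.1, ∃ i, x ∈ K.clOver f₁ a₁ (P i).1
  pers : ∀ i, E i ∈ Pers θ Q
  pers' : ∀ i, E' i ∈ Pers θ Q
  fix : ∀ j, ∀ x : K.clOver f₁ a₁ Q.1, (x : N₁) ∈ K.clOver f₁ a₁ (P j).1 → E' j x = E j x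
  inj : Function.Injective fun j => (E j).symm.comp (E' j)

theorem exists_block (hK : K.HasClosures) (hAP : K.Amalgamation) (hLS : K.LS ≤ χ) (hχθ : χ ≤ θ)
    (hf₁ : K.StrongEmb f₁) (hf₂ : K.StrongEmb f₂)
    (hcard : ∀ Q : K.Sml M χ, #(K.Isos f₁ a₁ f₂ a₂ Q.1) ≤ θ)
    (hbad : Bad K f₁ a₁ f₂ a₂ χ θ) (Q₀ : K.Sml M χ) :
    ∃ Q : K.Sml M χ, Nonempty
      (Block (f₁ := f₁) (a₁ := a₁) (f₂ := f₂) (a₂ := a₂) (θ := θ) Q₀ Q) := by
  classical
  have hM : K.Mem M := hf₁.mem_left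
  have hχ : ℵ₀ ≤ χ := (ls_spec (K := K)).1.trans hLS
  choose B hB e he e' he' hagree hne using hbad
  have hUB : ∀ S : Set (K.Sml M χ), ∃ R : K.Sml M χ, #S ≤ χ → ∀ Q ∈ S, Q.1 ≤ R.1 := by
    intro S
    by_cases hS : #S ≤ χ
    · obtain ⟨R, hR, _⟩ := exists_ub hM hLS S hS ∅ (by simp)
      exact ⟨R, fun _ => hR⟩
    · obtain ⟨R, _, _⟩ := exists_ub hM hLS (∅ : Set (K.Sml M χ)) (by simp) ∅ (by simp)
      exact ⟨R, fun h => absurd h hS⟩
  choose UB hUB using hUB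
  let step : (i : χ.ord.ToType) → ((j : χ.ord.ToType) → j < i → K.Sml M χ) → K.Sml M χ :=
    fun i g => UB (insert Q₀ (Set.range fun j : Set.Iio i => B (g j.1 j.2)))
  let P : χ.ord.ToType → K.Sml M χ := WellFounded.fix (wellFounded_lt) step
  have hP : ∀ i, P i = UB (insert Q₀ (Set.range fun j : Set.Iio i => B (P j.1))) := fun i =>
    WellFounded.fix_eq (wellFounded_lt) step i
  have hsmall : ∀ i : χ.ord.ToType,
      #(insert Q₀ (Set.range fun j : Set.Iio i => B (P j.1)) : Set (K.Sml M χ)) ≤ χ := by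
    intro i
    have h1 : #(Set.Iio i) < χ := by simpa using Cardinal.mk_Iio_lt i
    refine Cardinal.mk_insert_le.trans ?_
    exact (add_le_add (Cardinal.mk_range_le.trans h1.le)
      (Cardinal.one_le_aleph0.trans hχ)).trans (Cardinal.add_eq_self hχ).le
  have hPle : ∀ i j : χ.ord.ToType, j < i → (B (P j)).1 ≤ (P i).1 := by
    intro i j hji
    rw [hP i]
    exact hUB _ (hsmall i) _ (Set.mem_insert_of_mem _ ⟨⟨j, hji⟩, rfl⟩)
  have hP0 : ∀ i : χ.ord.ToType, Q₀.1 ≤ (P i).1 := by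
    intro i
    rw [hP i]
    exact hUB _ (hsmall i) _ (Set.mem_insert _ _)
  have hPmono : ∀ i j : χ.ord.ToType, i ≤ j → (P i).1 ≤ (P j).1 := by
    intro i j hij
    rcases hij.eq_or_lt with rfl | h
    · exact le_rfl
    · exact (hB (P i)).trans (hPle j i h)
  have hnm : NoMaxOrder χ.ord.ToType := Cardinal.noMaxOrder hχ
  let C : Set (L.Substructure M) := Set.range fun i => (P i).1
  have hne' : Nonempty χ.ord.ToType := by
    obtain ⟨i, _⟩ := exists_index (κ := χ) (ν := 0) (Cardinal.aleph0_pos.trans_le hχ)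
    exact ⟨i⟩
  have hCne : C.Nonempty := Set.range_nonempty _
  have hCch : IsChain (· ≤ ·) C := by
    rintro _ ⟨i, rfl⟩ _ ⟨j, rfl⟩ _
    rcases le_total i j with h | h
    · exact Or.inl (hPmono _ _ h)
    · exact Or.inr (hPmono _ _ h)
  have hCs : K.Strong M (sSup C) := by
    apply K.smooth M C hCne hCch
    rintro _ ⟨i, rfl⟩
    exact (P i).2.1
  have hCc : #(sSup C : L.Substructure M) ≤ χ := by
    have h1 : ((sSup C : L.Substructure M) : Set M) ⊆ ⋃ i : χ.ord.ToType, ((P i).1 : Set M) := by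
      intro x hx
      have hx' : x ∈ sSup C := hx
      rw [Substructure.mem_sSup_of_directedOn hCne hCch.directedOn] at hx'
      obtain ⟨_, ⟨i, rfl⟩, hxi⟩ := hx'
      exact Set.mem_iUnion.mpr ⟨i, hxi⟩
    refine (Cardinal.mk_le_mk_of_subset h1).trans ?_
    apply mk_union_le_of hχ
    · simp
    · intro i
      exact (P i).2.2
  let Qs : K.Sml M χ := ⟨sSup C, hCs, hCc⟩
  have hPQ : ∀ i, (P i).1 ≤ Qs.1 := fun i => le_sSup ⟨i, rfl⟩
  have hBQ : ∀ i, (B (P i)).1 ≤ Qs.1 := by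
    intro i
    obtain ⟨j, hj⟩ := exists_gt i
    exact (hPle j i hj).trans (hPQ j)
  choose E hE hEx using fun i => pers_extend hK hAP hLS hχθ hf₁ hf₂ (hBQ i) (hcard Qs) (he (P i))
  choose E' hE' hEx' using fun i => pers_extend hK hAP hLS hχθ hf₁ hf₂ (hBQ i) (hcard Qs) (he' (P i))
  have hfix : ∀ j, ∀ x : K.clOver f₁ a₁ Qs.1, (x : N₁) ∈ K.clOver f₁ a₁ (P j).1 →
      E' j x = E j x := by
    intro j x hx
    have hxB : (x : N₁) ∈ K.clOver f₁ a₁ (B (P j)).1 := clOver_mono (hB (P j)) hx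
    apply Subtype.ext
    rw [← hEx j ⟨x, hxB⟩ x rfl, ← hEx' j ⟨x, hxB⟩ x rfl, hagree (P j) ⟨x, hxB⟩ hx]
  have hmove : ∀ i, ∃ x : K.clOver f₁ a₁ Qs.1, (x : N₁) ∈ K.clOver f₁ a₁ (B (P i)).1 ∧
      E' i x ≠ E i x := by
    intro i
    by_contra hc
    push Not at hc
    apply hne (P i)
    apply Language.Equiv.ext
    intro y
    have hy : (y : N₁) ∈ K.clOver f₁ a₁ Qs.1 := clOver_mono (hBQ i) y.2
    apply Subtype.ext
    rw [hEx i y ⟨y, hy⟩ rfl, hEx' i y ⟨y, hy⟩ rfl, hc ⟨y, hy⟩ y.2]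
  have hlt : ∀ i j : χ.ord.ToType, i < j →
      (E i).symm.comp (E' i) ≠ (E j).symm.comp (E' j) := by
    intro i j hij heq
    obtain ⟨x, hx, hxm⟩ := hmove i
    have h2 : (E i).symm (E' i x) = (E j).symm (E' j x) :=
      congrArg (fun g : K.clOver f₁ a₁ Qs.1 ≃[L] K.clOver f₁ a₁ Qs.1 => g x) heq
    rw [hfix j x (clOver_mono (hPle j i hij) hx), Language.Equiv.symm_apply_apply] at h2
    apply hxm
    rw [← Language.Equiv.apply_symm_apply (E i) (E' i x), h2]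
  refine ⟨Qs, ⟨⟨P, E, E', ?_, hP0, hPmono, ?_, hE, hE', hfix, ?_⟩⟩⟩
  · exact (hP0 (Classical.arbitrary _)).trans (hPQ _)
  · intro x hx
    obtain ⟨_, ⟨i, rfl⟩, hi⟩ := exists_mem_clOver_of_chain hK hf₁ C hCne hCch
      (by rintro _ ⟨i, rfl⟩; exact (P i).2.1) hx
    exact ⟨i, hi⟩
  · intro i j hij
    rcases lt_trichotomy i j with h | h | h
    · exact absurd hij (hlt _ _ h)
    · exact h
    · exact absurd hij.symm (hlt _ _ h)

/-- If closures have fewer than `χ` automorphisms over fewer than `cf χ` elements then uniqueness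
does not fail everywhere. -/
theorem not_bad_of_over (hK : K.HasClosures) (hAP : K.Amalgamation) (hLS : K.LS ≤ χ) (hχθ : χ ≤ θ)
    (hf₁ : K.StrongEmb f₁) (hf₂ : K.StrongEmb f₂)
    (hcard : ∀ Q : K.Sml M χ, #(K.Isos f₁ a₁ f₂ a₂ Q.1) ≤ θ)
    (hover : OverLt K χ.ord.cof χ) : ¬ Bad K f₁ a₁ f₂ a₂ χ θ := by
  classical
  intro hbad
  have hM : K.Mem M := hf₁.mem_left
  have hχ : ℵ₀ ≤ χ := (ls_spec (K := K)).1.trans hLS
  obtain ⟨Q₀, _, _⟩ := exists_ub hM hLS (∅ : Set (K.Sml M χ)) (by simp) ∅ (by simp)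
  obtain ⟨Q, ⟨D⟩⟩ := exists_block hK hAP hLS hχθ hf₁ hf₂ hcard hbad Q₀
  obtain ⟨X, hX, hXc, hA⟩ := hover N₁ (Q.1.map f₁.toHom) a₁ (hf₁.map Q.2.1) (mk_map_le f₁ Q.2.2)
  have h1 : ∀ x : X, ∃ i : χ.ord.ToType, (x : N₁) ∈ K.clOver f₁ a₁ (D.P i).1 := fun x =>
    D.cover x.1 (hX x.2)
  choose idx hidx using h1
  obtain ⟨b, hb⟩ := exists_bound_of_lt_cof (Set.range idx) (Cardinal.mk_range_le.trans_lt hXc)
  have hXb : X ⊆ K.clOver f₁ a₁ (D.P b).1 := by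
    intro x hx
    exact clOver_mono (D.mono _ _ (hb _ ⟨⟨x, hx⟩, rfl⟩).le) (hidx ⟨x, hx⟩)
  have hg : ∀ j : Set.Ici b, (D.E j.1).symm.comp (D.E' j.1) ∈
      Auts (K.clOver f₁ a₁ Q.1) (insert a₁ (f₁ '' (Q.1 : Set M)) ∪ X) := by
    intro j
    apply comp_mem_auts (D.pers j.1).1 (D.pers' j.1).1
    intro x hx
    exact D.fix j.1 x (clOver_mono (D.mono _ _ j.2) (hXb hx))
  have hinj : Function.Injective fun j : Set.Ici b =>
      (⟨(D.E j.1).symm.comp (D.E' j.1), hg j⟩ :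
        Auts (K.clOver f₁ a₁ Q.1) (insert a₁ (f₁ '' (Q.1 : Set M)) ∪ X)) := by
    intro i j hij
    exact Subtype.ext (D.inj (congrArg Subtype.val hij))
  have h3 : #(Set.Ici b) < χ := (Cardinal.mk_le_of_injective hinj).trans_lt hA
  have h4 : #(Set.Iio b) < χ := by simpa using Cardinal.mk_Iio_lt b
  have h5 : χ ≤ #(Set.Iio b) + #(Set.Ici b) := by
    have h6 : #(Set.univ : Set χ.ord.ToType) = χ := by simp
    rw [← Set.Iio_union_Ici (a := b)] at h6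
    exact h6.symm.le.trans (Cardinal.mk_union_le _ _)
  exact absurd h5 (not_le.mpr (Cardinal.add_lt_of_lt hχ h4 h3))

end context

end Pool.Agent.H81.FB
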