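import Mathlib

set_option autoImplicit false

/-!
# Powers of strong limit cardinals
-/

open Cardinal Ordinal

namespace Pool.Agent.H81.FB

universe w

theorem power_le_of_lt_cof {θ ν : Cardinal.{w}} (hθ : IsStrongLimit θ) (hν : ν < θ.ord.cof) :
    θ ^ ν ≤ θ := by
  induction θ using Cardinal.inductionOn with | mk H
  induction ν using Cardinal.inductionOn with | mk V
  have h0 : ℵ₀ ≤ #H := hθ.aleph0_le
  have hVH : #V ≤ #H := hν.le.trans (Ordinal.cof_ord_le _)
  rcases isEmpty_or_nonempty V with hV | hV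
  · rw [Cardinal.mk_eq_zero V, Cardinal.power_zero]
    exact Cardinal.one_le_aleph0.trans h0
  have hc : #(V × H) = #H := by
    rw [Cardinal.mk_prod, Cardinal.lift_id, Cardinal.lift_id]
    exact Cardinal.mul_eq_right h0 hVH (Cardinal.mk_ne_zero V)
  rw [Cardinal.power_def]
  have hs : ∀ g : V → H, #({p : V × H | g p.1 = p.2} : Set (V × H)) < (#(V × H)).ord.cof := by
    intro g
    have h1 : ({p : V × H | g p.1 = p.2} : Set (V × H)) ⊆ Set.range fun v => (v, g v) := by
      rintro ⟨v, x⟩ hx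
      exact ⟨v, Prod.ext rfl hx⟩
    rw [hc]
    exact ((Cardinal.mk_le_mk_of_subset h1).trans Cardinal.mk_range_le).trans_lt hν
  calc #(V → H) ≤ #{s : Set (V × H) // #s < (#(V × H)).ord.cof} := by
        refine Cardinal.mk_le_of_injective (f := fun g : V → H =>
          (⟨{p | g p.1 = p.2}, hs g⟩ : {s : Set (V × H) // #s < (#(V × H)).ord.cof})) ?_
        intro g g' hg
        funext v
        have h1 : ({p : V × H | g p.1 = p.2} : Set (V × H)) = {p | g' p.1 = p.2} :=
          congrArg Subtype.val hg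
        have h2 : (v, g v) ∈ ({p : V × H | g' p.1 = p.2} : Set (V × H)) := by
          rw [← h1]
          rfl
        exact (h2 : g' v = g v).symm
    _ = #(V × H) := Cardinal.mk_subset_mk_lt_cof (by rw [hc]; exact hθ.isStrongPrelimit)
    _ = #H := hc

theorem cof_beth {c : Cardinal.{w}} (hc : c.IsRegular) :
    (Cardinal.beth c.ord).ord.cof = c := by
  have h1 : Order.IsNormal fun o : Ordinal.{w} => (Cardinal.beth o).ord :=
    Cardinal.isNormal_ord.comp Cardinal.isNormal_beth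
  rw [Ordinal.cof_map_of_isNormal h1 (Cardinal.isSuccLimit_ord hc.aleph0_le), hc.cof_ord]

/-- `2 ^ χ ≤ χ ^ ℵ₀` for strong limit cardinals `χ` of countable cofinality. -/
theorem two_power_le {χ : Cardinal.{w}} (hχ : IsStrongLimit χ) (hcof : χ.ord.cof = ℵ₀) :
    2 ^ χ ≤ χ ^ ℵ₀ := by
  have h0 : ℵ₀ ≤ χ := hχ.aleph0_le
  have : NoMaxOrder χ.ord.ToType := Cardinal.noMaxOrder h0
  have hI : #χ.ord.ToType = χ := by simp
  obtain ⟨S, hS, hSc⟩ := Order.exists_cof_eq χ.ord.ToType
  have hSc' : #S = ℵ₀ := by rw [hSc, Ordinal.cof_toType, hcof]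
  have hty : (#χ.ord.ToType).ord = Ordinal.type (α := χ.ord.ToType) (· < ·) := by
    rw [hI, Ordinal.type_toType]
  have hb := Cardinal.mk_bounded_subset (α := χ.ord.ToType) (by rw [hI]; exact hχ.isStrongPrelimit)
    (r := (· < ·)) hty
  let F : Set χ.ord.ToType → (S → {B : Set χ.ord.ToType // Set.Bounded (· < ·) B}) :=
    fun A s => ⟨A ∩ Set.Iio s.1, s.1, fun b hb => hb.2⟩
  have hF : Function.Injective F := by
    intro A A' hAA
    ext x
    obtain ⟨y, hy⟩ := exists_gt x
    obtain ⟨s, hs, hys⟩ := hS y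
    have h1 : A ∩ Set.Iio s = A' ∩ Set.Iio s := congrArg Subtype.val (congrFun hAA ⟨s, hs⟩)
    have hx : x ∈ Set.Iio s := hy.trans_le hys
    constructor
    · intro hxA
      exact (h1 ▸ (⟨hxA, hx⟩ : x ∈ A ∩ Set.Iio s) : x ∈ A' ∩ Set.Iio s).1
    · intro hxA
      exact (h1.symm ▸ (⟨hxA, hx⟩ : x ∈ A' ∩ Set.Iio s) : x ∈ A ∩ Set.Iio s).1
  have h1 := Cardinal.mk_le_of_injective hF
  rw [Cardinal.mk_set, ← Cardinal.power_def, hSc', hb, hI] at h1
  exact h1

end Pool.Agent.H81.FB
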