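import Pool.Agent.H81.FB.Main
import Pool.Agent.H81.FB.Card

set_option autoImplicit false

/-!
# Conversions between the hypotheses
-/

open FirstOrder FirstOrder.Language Cardinal

namespace Pool.Agent.H81.FB

universe w

open Pool.Agent.H85.AECT Pool.Agent.H85.AECT.AEC

variable {L : FirstOrder.Language.{w, w}} {K : AEC L}

theorem FewAuts.mono {κ χ μ μ' : Cardinal.{w}} (h : FewAuts K κ χ μ) (hμ : μ ≤ μ') :
    FewAuts K κ χ μ' := by
  intro N _ M a hM hMc
  obtain ⟨X, hX, hXc, hA⟩ := h N M a hM hMc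
  exact ⟨X, hX, hXc, hA.trans_le hμ⟩

theorem autBound_of_few {χ θ : Cardinal.{w}} (h : FewAuts K 1 χ (Order.succ θ)) :
    AutBound K χ θ := by
  intro N _ M a hM hMc
  obtain ⟨X, hX, hXc, hA⟩ := h N M a hM hMc
  have h1 : X = ∅ := by
    have h2 : #X = 0 := Cardinal.lt_one_iff.mp hXc
    exact Set.isEmpty_coe_sort.mp (Cardinal.mk_eq_zero_iff.mp h2)
  rw [h1, Set.union_empty] at hA
  exact Order.lt_succ_iff.mp hA

/-- Counting automorphisms by their values on `X`. -/
theorem mk_auts_le {N : Type w} [L.Structure N] (C : L.Substructure N) (A X : Set N)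
    (hX : X ⊆ C) : #(Auts C A) ≤ #C ^ #X * #(Auts C (A ∪ X)) := by
  classical
  let F : Auts C A → (X → C) := fun g x => g.1 ⟨x, hX x.2⟩
  have h2 : ∀ u : X → C, #(F ⁻¹' {u}) ≤ #(Auts C (A ∪ X)) := by
    intro u
    rcases Set.eq_empty_or_nonempty (F ⁻¹' {u}) with hemp | ⟨e₀, he₀⟩
    · rw [hemp]
      simp
    · have h3 : ∀ e : F ⁻¹' {u}, e₀.1.symm.comp e.1.1 ∈ Auts C (A ∪ X) := by
        intro e x hx
        have h2 : e.1.1 x = e₀.1 x := by
          rcases hx with hx | hx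
          · rw [e.1.2 x hx, e₀.2 x hx]
          · have h4 : F e.1 = F e₀ := by
              have h5 : F e.1 = u := e.2
              have h6 : F e₀ = u := he₀
              rw [h5, h6]
            exact congrFun h4 ⟨x, hx⟩
        show e₀.1.symm (e.1.1 x) = x
        rw [h2]
        exact Language.Equiv.symm_apply_apply _ _
      refine Cardinal.mk_le_of_injective (f := fun e : F ⁻¹' {u} =>
        (⟨e₀.1.symm.comp e.1.1, h3 e⟩ : Auts C (A ∪ X))) ?_
      intro e e' hee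
      have h4 : e₀.1.symm.comp e.1.1 = e₀.1.symm.comp e'.1.1 := congrArg Subtype.val hee
      apply Subtype.ext
      apply Subtype.ext
      apply Language.Equiv.ext
      intro x
      have h5 : e₀.1.symm (e.1.1 x) = e₀.1.symm (e'.1.1 x) :=
        congrArg (fun g : C ≃[L] C => g x) h4
      exact e₀.1.symm.injective h5
  have h3 := Cardinal.mk_le_mk_mul_of_mk_preimage_le F h2
  rwa [← Cardinal.power_def] at h3

theorem few_or {χ : Cardinal.{w}} (hLS : K.LS ≤ χ) (h : FewAuts K ℵ₀ χ (χ ^ (ℵ₀ : Cardinal.{w}))) :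
    AutLt K χ ∨ OverLt K χ.ord.cof χ := by
  have hχ : ℵ₀ ≤ χ := (ls_spec (K := K)).1.trans hLS
  have hcof : ℵ₀ ≤ χ.ord.cof := by
    rw [Ordinal.aleph0_le_cof_iff, Ordinal.one_lt_cof_iff]
    exact Cardinal.isSuccLimit_ord hχ
  have hself : χ ≤ χ ^ (ℵ₀ : Cardinal.{w}) := Cardinal.self_le_power χ Cardinal.one_le_aleph0
  rcases hself.eq_or_lt with heq | hlt
  · right
    intro N _ M a hM hMc
    obtain ⟨X, hX, hXc, hA⟩ := h N M a hM hMc
    exact ⟨X, hX, hXc.trans_le hcof, heq ▸ hA⟩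
  · left
    intro N _ M a hM hMc
    obtain ⟨X, hX, hXc, hA⟩ := h N M a hM hMc
    refine (mk_auts_le _ _ X hX).trans_lt ?_
    have hC := mk_cl_le_of hLS a hM hMc
    have h1 : #(K.cl (insert a (M : Set N))) ^ #X ≤ χ := by
      refine (Cardinal.power_le_power_right hC).trans ?_
      obtain ⟨n, hn⟩ := Cardinal.lt_aleph0.mp hXc
      rw [hn]
      exact_mod_cast Cardinal.power_nat_le hχ
    have hinf : ℵ₀ ≤ χ ^ (ℵ₀ : Cardinal.{w}) := hχ.trans hself
    exact Cardinal.mul_lt_of_lt hinf (h1.trans_lt hlt) hA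

theorem over_of_smallClosures {θ : Cardinal.{w}} (hθ : IsStrongLimit θ)
    (h : SmallClosures K θ) : FewAuts K 1 θ θ := by
  classical
  intro N _ M a hM hMc
  refine ⟨∅, Set.empty_subset _, by simp, ?_⟩
  let D : Set N := {x : N | x ∈ K.cl (insert a (M : Set N)) ∧ x ∉ M}
  have hD : #D < θ := h N M a hM hMc
  have hmap : ∀ g : Auts (K.cl (insert a (M : Set N))) (insert a (M : Set N) ∪ ∅), ∀ x : D,
      (g.1 ⟨x.1, x.2.1⟩ : N) ∈ D := by
    intro g x
    refine ⟨(g.1 ⟨x.1, x.2.1⟩).2, fun hx => ?_⟩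
    have h1 : g.1 (g.1 ⟨x.1, x.2.1⟩) = g.1 ⟨x.1, x.2.1⟩ := g.2 _ (Or.inl (Or.inr hx))
    have h2 : g.1 ⟨x.1, x.2.1⟩ = ⟨x.1, x.2.1⟩ := g.1.injective h1
    rw [h2] at hx
    exact x.2.2 hx
  let F : Auts (K.cl (insert a (M : Set N))) (insert a (M : Set N) ∪ ∅) → (D → D) :=
    fun g x => ⟨g.1 ⟨x.1, x.2.1⟩, hmap g x⟩
  have hF : Function.Injective F := by
    intro g g' hgg
    apply Subtype.ext
    apply Language.Equiv.ext
    intro x
    by_cases hx : (x : N) ∈ M
    · rw [g.2 x (Or.inl (Or.inr hx)), g'.2 x (Or.inl (Or.inr hx))]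
    · have h1 := congrFun hgg ⟨x.1, x.2, hx⟩
      exact Subtype.ext (congrArg (fun y : D => (y : N)) h1)
  rcases lt_or_ge (#D) ℵ₀ with hfin | hinf
  · have h1 : #(D → D) < ℵ₀ := by
      rw [← Cardinal.power_def]
      exact Cardinal.power_lt_aleph0 hfin hfin
    exact ((Cardinal.mk_le_of_injective hF).trans_lt h1).trans_le hθ.aleph0_le
  · have h1 : #(D → D) = 2 ^ #D := by
      rw [← Cardinal.power_def]
      exact Cardinal.power_self_eq hinf
    exact (Cardinal.mk_le_of_injective hF).trans_lt (h1 ▸ hθ.isStrongPrelimit hD)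

end Pool.Agent.H81.FB
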