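import Pool.Agent.H81.FB.Omega

set_option autoImplicit false

/-!
# Few automorphisms imply tameness
-/

open FirstOrder FirstOrder.Language Cardinal

namespace Pool.Agent.H81.FB

universe w

open Pool.Agent.H85.AECT Pool.Agent.H85.AECT.AEC

variable {L : FirstOrder.Language.{w, w}} {K : AEC L}

section context

variable {M N₁ N₂ : Type w} [L.Structure M] [L.Structure N₁] [L.Structure N₂]
  {f₁ : M ↪[L] N₁} {a₁ : N₁} {f₂ : M ↪[L] N₂} {a₂ : N₂} {χ θ : Cardinal.{w}}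

theorem sameType_of_not_bad (hK : K.HasClosures) (hAP : K.Amalgamation) (hLS : K.LS ≤ χ)
    (hχθ : χ ≤ θ) (hf₁ : K.StrongEmb f₁) (hf₂ : K.StrongEmb f₂)
    (hsame : ∀ M₀ : L.Substructure M, K.Strong M M₀ → #M₀ ≤ θ →
      K.SameType (f₁.comp M₀.subtype) a₁ (f₂.comp M₀.subtype) a₂)
    (hcard : ∀ Q : K.Sml M χ, #(K.Isos f₁ a₁ f₂ a₂ Q.1) ≤ θ)
    (hnb : ¬ Bad K f₁ a₁ f₂ a₂ χ θ) : K.SameType f₁ a₁ f₂ a₂ := by
  classical
  have hM : K.Mem M := hf₁.mem_left
  have hQ₀ : ∃ Q₀ : K.Sml M χ, ∀ Q : K.Sml M χ, Q₀.1 ≤ Q.1 →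
      ∀ e ∈ Pers (f₁ := f₁) (a₁ := a₁) (f₂ := f₂) (a₂ := a₂) θ Q,
      ∀ e' ∈ Pers (f₁ := f₁) (a₁ := a₁) (f₂ := f₂) (a₂ := a₂) θ Q,
      (∀ x : K.clOver f₁ a₁ Q.1, (x : N₁) ∈ K.clOver f₁ a₁ Q₀.1 → e x = e' x) → e = e' := by
    by_contra hcon
    push Not at hcon
    exact hnb hcon
  obtain ⟨Q₀, hQ₀⟩ := hQ₀
  obtain ⟨e₀, _, he₀⟩ := exists_pers hK hAP hLS hχθ hf₁ hf₂ Q₀ (hcard Q₀) Set.univ (by
    intro R hR
    obtain ⟨e, he⟩ := isos_nonempty hK hf₁ hf₂ R.2.1 (hsame R.1 R.2.1 R.2.2)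
    obtain ⟨e', he', hext⟩ := isos_restrict hK hAP hf₁ hf₂ Q₀.2.1 R.2.1 hR he
    exact ⟨e, he, e', he', trivial, hext⟩)
  choose e he hee using fun Q : {Q : K.Sml M χ // Q₀.1 ≤ Q.1} =>
    pers_extend hK hAP hLS hχθ hf₁ hf₂ Q.2 (hcard Q.1) he₀
  have hcoh : ∀ Q R : {Q : K.Sml M χ // Q₀.1 ≤ Q.1}, Q ≤ R → Extends (e Q) (e R) := by
    intro Q R hQR
    obtain ⟨e', he', hext⟩ := pers_restrict hK hAP hLS hχθ hf₁ hf₂ (show Q.1.1 ≤ R.1.1 from hQR)
      (he R)
    have h1 : Extends e₀ e' := Extends.mid (show Q.1.1 ≤ R.1.1 from hQR) (hee R) hext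
    have h2 : e Q = e' := by
      apply hQ₀ Q.1 Q.2 (e Q) (he Q) e' he'
      intro x hx
      apply Subtype.ext
      rw [← hee Q ⟨x, hx⟩ x rfl, ← h1 ⟨x, hx⟩ x rfl]
    rw [h2]
    exact hext
  have : Nonempty {Q : K.Sml M χ // Q₀.1 ≤ Q.1} := ⟨⟨Q₀, le_rfl⟩⟩
  have : IsDirectedOrder {Q : K.Sml M χ // Q₀.1 ≤ Q.1} := ⟨fun Q R => by
    obtain ⟨S, hS, hS'⟩ := exists_ub_two hM hLS Q.1 R.1
    exact ⟨⟨S, Q.2.trans hS⟩, hS, hS'⟩⟩
  have hχ : ℵ₀ ≤ χ := (ls_spec (K := K)).1.trans hLS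
  have hcl : ∀ (N : Type w) [L.Structure N] (f : M ↪[L] N) (a : N), K.StrongEmb f →
      ∀ x ∈ K.clOver f a (⊤ : L.Substructure M),
        ∃ Q : {Q : K.Sml M χ // Q₀.1 ≤ Q.1}, x ∈ K.clOver f a Q.1.1 := by
    intro N _ f a hf x hx
    obtain ⟨Q, hQ⟩ := exists_small_of_mem hK hLS _ M N f a rfl hf x hx
    obtain ⟨S, hS, hS'⟩ := exists_ub_two hM hLS Q₀ Q
    exact ⟨⟨S, hS⟩, clOver_mono hS' hQ⟩
  obtain ⟨u, hu, _⟩ := glue (fun Q : {Q : K.Sml M χ // Q₀.1 ≤ Q.1} => Q.1.1)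
    (⊤ : L.Substructure M) (fun _ => le_top) (fun _ _ h => h)
    (by
      intro m _
      obtain ⟨S, hS, hS'⟩ := exists_ub hM hLS {Q₀}
        (by rw [Cardinal.mk_singleton]; exact Cardinal.one_le_aleph0.trans hχ) {m}
        (by rw [Cardinal.mk_singleton]; exact Cardinal.one_le_aleph0.trans hχ)
      exact ⟨⟨S, hS Q₀ rfl⟩, hS' rfl⟩)
    (hcl N₁ f₁ a₁ hf₁) (hcl N₂ f₂ a₂ hf₂) e (fun Q => (he Q).1) hcoh
  exact sameType_of_isos hK hAP hf₁ hf₂ hu

end context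

/-- **Main theorem.** -/
theorem tame_of_bound (hK : K.HasClosures) (hAP : K.Amalgamation)
    {χ θ : Cardinal.{w}} (hLS : K.LS ≤ χ) (hχθ : χ ≤ θ) (hA : AutBound K χ θ)
    (hF : AutLt K χ ∨ OverLt K χ.ord.cof χ) : K.Tame θ := by
  intro M N₁ N₂ _ _ _ f₁ a₁ f₂ a₂ hf₁ hf₂ hsame
  have hcard : ∀ Q : K.Sml M χ, #(K.Isos f₁ a₁ f₂ a₂ Q.1) ≤ θ := fun Q =>
    isos_le_of_bound hA hf₁ Q
  apply sameType_of_not_bad hK hAP hLS hχθ hf₁ hf₂ hsame hcard
  rcases hF with hF | hF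
  · exact not_bad_of_few hK hAP hLS hχθ hf₁ hf₂ hcard hF
  · exact not_bad_of_over hK hAP hLS hχθ hf₁ hf₂ hcard hF

theorem mk_cl_le_of {χ : Cardinal.{w}} (hLS : K.LS ≤ χ) {N : Type w} [L.Structure N]
    {M : L.Substructure N} (a : N) (hM : K.Strong N M) (hMc : #M ≤ χ) :
    #(K.cl (insert a (M : Set N))) ≤ χ := by
  have hχ : ℵ₀ ≤ χ := (ls_spec (K := K)).1.trans hLS
  refine (mk_cl_le (K.mem_of_strong _ _ hM).1 _).trans ?_
  have h1 : #(insert a (M : Set N) : Set N) ≤ χ := by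
    refine Cardinal.mk_insert_le.trans ?_
    exact (add_le_add hMc (Cardinal.one_le_aleph0.trans hχ)).trans
      (Cardinal.add_eq_self hχ).le
  exact (add_le_add h1 hLS).trans (Cardinal.add_eq_self hχ).le

/-- Closures over models of size at most `χ` have at most `2 ^ χ` automorphisms. -/
theorem autBound_two_pow {χ : Cardinal.{w}} (hLS : K.LS ≤ χ) : AutBound K χ (2 ^ χ) := by
  intro N _ M a hM hMc
  have hχ : ℵ₀ ≤ χ := (ls_spec (K := K)).1.trans hLS
  have hC := mk_cl_le_of hLS a hM hMc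
  let F : Auts (K.cl (insert a (M : Set N))) (insert a (M : Set N)) →
      (K.cl (insert a (M : Set N)) → K.cl (insert a (M : Set N))) := fun g x => g.1 x
  have hF : Function.Injective F := by
    intro g g' hgg
    apply Subtype.ext
    apply Language.Equiv.ext
    intro x
    exact congrFun hgg x
  refine (Cardinal.mk_le_of_injective hF).trans ?_
  rw [← Cardinal.power_def, ← Cardinal.power_self_eq hχ]
  exact (Cardinal.power_le_power_right hC).trans
    (Cardinal.power_le_power_left (Cardinal.aleph0_pos.trans_le hχ).ne' hC)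

/-- Counting automorphisms by their values on `X`. -/
theorem bound_of_over {κ θ : Cardinal.{w}} (hLS : K.LS ≤ θ) (hpow : ∀ ν < κ, θ ^ ν ≤ θ)
    (hFA : OverLt K κ θ) : AutBound K θ θ ∧ OverLt K θ.ord.cof θ := by
  classical
  have hθ : ℵ₀ ≤ θ := (ls_spec (K := K)).1.trans hLS
  constructor
  · intro N _ M a hM hMc
    obtain ⟨X, hX, hXc, hA⟩ := hFA N M a hM hMc
    have hC := mk_cl_le_of hLS a hM hMc
    let F : Auts (K.cl (insert a (M : Set N))) (insert a (M : Set N)) →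
        (X → K.cl (insert a (M : Set N))) := fun g x => g.1 ⟨x, hX x.2⟩
    have h1 : #(X → K.cl (insert a (M : Set N))) ≤ θ := by
      rw [← Cardinal.power_def]
      exact (Cardinal.power_le_power_right hC).trans (hpow _ hXc)
    have h2 : ∀ u : X → K.cl (insert a (M : Set N)), #(F ⁻¹' {u}) ≤ θ := by
      intro u
      rcases Set.eq_empty_or_nonempty (F ⁻¹' {u}) with hemp | ⟨e₀, he₀⟩
      · rw [hemp]
        simp
      · have h3 : ∀ e : F ⁻¹' {u}, e₀.1.symm.comp e.1.1 ∈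
            Auts (K.cl (insert a (M : Set N))) (insert a (M : Set N) ∪ X) := by
          intro e x hx
          have h2 : e.1.1 x = e₀.1 x := by
            rcases hx with hx | hx
            · rw [e.1.2 x hx, e₀.2 x hx]
            · have h4 : F e.1 = F e₀ := by
                have h5 : F e.1 = u := e.2
                have h6 : F e₀ = u := he₀
                rw [h5, h6]
              exact congrFun h4 ⟨x, hx⟩
          show e₀.1.symm (e.1.1 x) = x
          rw [h2]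
          exact Language.Equiv.symm_apply_apply _ _
        refine le_trans ?_ hA.le
        refine Cardinal.mk_le_of_injective (f := fun e : F ⁻¹' {u} =>
          (⟨e₀.1.symm.comp e.1.1, h3 e⟩ :
            Auts (K.cl (insert a (M : Set N))) (insert a (M : Set N) ∪ X))) ?_
        intro e e' hee
        have h4 : e₀.1.symm.comp e.1.1 = e₀.1.symm.comp e'.1.1 := congrArg Subtype.val hee
        apply Subtype.ext
        apply Subtype.ext
        apply Language.Equiv.ext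
        intro x
        have h5 : e₀.1.symm (e.1.1 x) = e₀.1.symm (e'.1.1 x) :=
          congrArg (fun g : K.cl (insert a (M : Set N)) ≃[L] K.cl (insert a (M : Set N)) => g x) h4
        exact e₀.1.symm.injective h5
    refine (Cardinal.mk_le_mk_mul_of_mk_preimage_le F h2).trans ?_
    exact (mul_le_mul' h1 le_rfl).trans (Cardinal.mul_eq_self hθ).le
  · intro N _ M a hM hMc
    obtain ⟨X, hX, hXc, hA⟩ := hFA N M a hM hMc
    refine ⟨X, hX, ?_, hA⟩
    by_contra hcon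
    push Not at hcon
    have h1 := Cardinal.lt_power_cof_ord hθ
    have h2 : θ ^ θ.ord.cof ≤ θ ^ #X :=
      Cardinal.power_le_power_left (Cardinal.aleph0_pos.trans_le hθ).ne' hcon
    exact absurd (h2.trans (hpow _ hXc)) (not_le.mpr h1)

end Pool.Agent.H81.FB
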