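import Pool.Agent.H81.FB.Block

set_option autoImplicit false

/-!
# Infinite products of persistent automorphisms
-/

open FirstOrder FirstOrder.Language Cardinal

namespace Pool.Agent.H81.FB

universe w

open Pool.Agent.H85.AECT Pool.Agent.H85.AECT.AEC

variable {L : FirstOrder.Language.{w, w}} {K : AEC L}

section context

variable {M N₁ N₂ : Type w} [L.Structure M] [L.Structure N₁] [L.Structure N₂]
  {f₁ : M ↪[L] N₁} {a₁ : N₁} {f₂ : M ↪[L] N₂} {a₂ : N₂} {χ θ : Cardinal.{w}}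

/-- If closures have fewer than `χ ^ ℵ₀` automorphisms then uniqueness does not fail
everywhere. -/
theorem not_bad_of_few (hK : K.HasClosures) (hAP : K.Amalgamation) (hLS : K.LS ≤ χ) (hχθ : χ ≤ θ)
    (hf₁ : K.StrongEmb f₁) (hf₂ : K.StrongEmb f₂)
    (hcard : ∀ Q : K.Sml M χ, #(K.Isos f₁ a₁ f₂ a₂ Q.1) ≤ θ)
    (hfew : AutLt K χ) : ¬ Bad K f₁ a₁ f₂ a₂ χ θ := by
  classical
  intro hbad
  have hM : K.Mem M := hf₁.mem_left
  have hχ : ℵ₀ ≤ χ := (ls_spec (K := K)).1.trans hLS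
  obtain ⟨Q00, _, _⟩ := exists_ub hM hLS (∅ : Set (K.Sml M χ)) (by simp) ∅ (by simp)
  obtain ⟨Q0, _, e0, he0, _⟩ := hbad Q00
  choose nx hnx using fun Q : K.Sml M χ => exists_block hK hAP hLS hχθ hf₁ hf₂ hcard hbad Q
  let D : ∀ Q : K.Sml M χ, Block (f₁ := f₁) (a₁ := a₁) (f₂ := f₂) (a₂ := a₂) (θ := θ) Q (nx Q) :=
    fun Q => (hnx Q).some
  let Qn : ℕ → K.Sml M χ := fun n => Nat.rec Q0 (fun _ Q => nx Q) n
  have hQle : ∀ n, (Qn n).1 ≤ (Qn (n + 1)).1 := fun n => (D (Qn n)).le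
  have hQmono : ∀ i j, i ≤ j → (Qn i).1 ≤ (Qn j).1 := by
    intro i j hij
    induction j, hij using Nat.le_induction with
    | base => exact le_rfl
    | succ j _ ih => exact ih.trans (hQle j)
  choose ex hexP hexE using fun (n : ℕ)
    (e : Pers (f₁ := f₁) (a₁ := a₁) (f₂ := f₂) (a₂ := a₂) θ (Qn n)) =>
      pers_extend hK hAP hLS hχθ hf₁ hf₂ (hQle n) (hcard (Qn (n + 1))) e.2
  let E : (ℕ → χ.ord.ToType) → (n : ℕ) →
      Pers (f₁ := f₁) (a₁ := a₁) (f₂ := f₂) (a₂ := a₂) θ (Qn n) := fun η n =>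
    Nat.rec (motive := fun n => Pers (f₁ := f₁) (a₁ := a₁) (f₂ := f₂) (a₂ := a₂) θ (Qn n))
      ⟨e0, he0⟩ (fun n e => ⟨(ex n e).comp (((D (Qn n)).E (η n)).symm.comp ((D (Qn n)).E' (η n))),
        pers_comp (hexP n e) ((D (Qn n)).pers _) ((D (Qn n)).pers' _)⟩) n
  have hEs : ∀ η n, (E η (n + 1)).1 =
      (ex n (E η n)).comp (((D (Qn n)).E (η n)).symm.comp ((D (Qn n)).E' (η n))) := fun η n => rfl
  have hstep : ∀ η n, Extends (E η n).1 (E η (n + 1)).1 := by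
    intro η n x y hxy
    rw [hEs]
    have h1 : (D (Qn n)).E' (η n) y = (D (Qn n)).E (η n) y :=
      (D (Qn n)).fix (η n) y (clOver_mono ((D (Qn n)).le_P _) (hxy ▸ x.2))
    show _ = ((ex n (E η n)) (((D (Qn n)).E (η n)).symm ((D (Qn n)).E' (η n) y)) : N₂)
    rw [h1, Language.Equiv.symm_apply_apply]
    exact hexE n (E η n) x y hxy
  have hcoh : ∀ η i j, i ≤ j → Extends (E η i).1 (E η j).1 := by
    intro η i j hij
    induction j, hij using Nat.le_induction with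
    | base => exact Extends.rfl' _
    | succ j hij ih => exact Extends.trans (hQmono i j hij) ih (hstep η j)
  let C : Set (L.Substructure M) := Set.range fun i => (Qn i).1
  have hCne : C.Nonempty := Set.range_nonempty _
  have hCch : IsChain (· ≤ ·) C := by
    rintro _ ⟨i, rfl⟩ _ ⟨j, rfl⟩ _
    rcases le_total i j with h | h
    · exact Or.inl (hQmono _ _ h)
    · exact Or.inr (hQmono _ _ h)
  have hCs : K.Strong M (sSup C) := by
    apply K.smooth M C hCne hCch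
    rintro _ ⟨i, rfl⟩
    exact (Qn i).2.1
  have hCm : ∀ m ∈ sSup C, ∃ i, m ∈ (Qn i).1 := by
    intro m hm
    rw [Substructure.mem_sSup_of_directedOn hCne hCch.directedOn] at hm
    obtain ⟨_, ⟨i, rfl⟩, hi⟩ := hm
    exact ⟨i, hi⟩
  have hCc : #(sSup C : L.Substructure M) ≤ χ := by
    have h1 : ((sSup C : L.Substructure M) : Set M) ⊆
        ⋃ i : ULift.{w} ℕ, ((Qn i.down).1 : Set M) := by
      intro x hx
      obtain ⟨i, hi⟩ := hCm x hx
      exact Set.mem_iUnion.mpr ⟨⟨i⟩, hi⟩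
    refine (Cardinal.mk_le_mk_of_subset h1).trans ?_
    apply mk_union_le_of hχ
    · simpa using hχ
    · intro i
      exact (Qn i.down).2.2
  have hglue : ∀ η, ∃ u ∈ K.Isos f₁ a₁ f₂ a₂ (sSup C), ∀ i, Extends (E η i).1 u := by
    intro η
    apply glue (fun i => (Qn i).1) (sSup C) (fun i => le_sSup ⟨i, rfl⟩) hQmono hCm
    · intro x hx
      obtain ⟨_, ⟨i, rfl⟩, hi⟩ := exists_mem_clOver_of_chain hK hf₁ C hCne hCch
        (by rintro _ ⟨i, rfl⟩; exact (Qn i).2.1) hx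
      exact ⟨i, hi⟩
    · intro x hx
      obtain ⟨_, ⟨i, rfl⟩, hi⟩ := exists_mem_clOver_of_chain hK hf₂ C hCne hCch
        (by rintro _ ⟨i, rfl⟩; exact (Qn i).2.1) hx
      exact ⟨i, hi⟩
    · exact fun i => (E η i).2.1
    · exact hcoh η
  choose u hu hue using hglue
  have hinj : Function.Injective fun η : ℕ → χ.ord.ToType =>
      (⟨u η, hu η⟩ : K.Isos f₁ a₁ f₂ a₂ (sSup C)) := by
    intro η η' hηη
    have h1 : u η = u η' := congrArg Subtype.val hηη
    have h2 : ∀ n, E η n = E η' n := by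
      intro n
      apply Subtype.ext
      have h3 := hue η n
      rw [h1] at h3
      exact Extends.unique (le_sSup (show (Qn n).1 ∈ C from ⟨n, rfl⟩)) h3 (hue η' n)
    funext n
    have h3 : (E η (n + 1)).1 = (E η' (n + 1)).1 := by rw [h2 (n + 1)]
    rw [hEs, hEs, h2 n] at h3
    apply (D (Qn n)).inj
    apply Language.Equiv.ext
    intro x
    have h4 := congrArg (fun g : K.clOver f₁ a₁ (Qn (n + 1)).1 ≃[L]
      K.clOver f₂ a₂ (Qn (n + 1)).1 => g x) h3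
    exact (ex n (E η' n)).injective h4
  have h1 : #(ℕ → χ.ord.ToType) ≤ #(K.Isos f₁ a₁ f₂ a₂ (sSup C)) :=
    Cardinal.mk_le_of_injective hinj
  have h2 : #(ℕ → χ.ord.ToType) = χ ^ ℵ₀ := by
    simp
  have h3 := hfew N₁ ((sSup C).map f₁.toHom) a₁ (hf₁.map hCs) (mk_map_le f₁ hCc)
  have h4 := (mk_isos_le (f₁ := f₁) (a₁ := a₁) (f₂ := f₂) (a₂ := a₂) (K := K) (sSup C)).trans_lt h3
  exact absurd (h2 ▸ h1) (not_le.mpr h4)

end context

end Pool.Agent.H81.FB
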