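import Pool.Agent.H81.FB.Basic

set_option autoImplicit false

/-!
# Persistent isomorphisms of closures
-/

open FirstOrder FirstOrder.Language Cardinal

namespace Pool.Agent.H81.FB

universe w

open Pool.Agent.H85.AECT Pool.Agent.H85.AECT.AEC

variable {L : FirstOrder.Language.{w, w}} {K : AEC L}

section context

variable {M N₁ N₂ : Type w} [L.Structure M] [L.Structure N₁] [L.Structure N₂]
  {f₁ : M ↪[L] N₁} {a₁ : N₁} {f₂ : M ↪[L] N₂} {a₂ : N₂} {χ θ : Cardinal.{w}}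

theorem exists_ub_two (hM : K.Mem M) (hLS : K.LS ≤ χ) (Q R : K.Sml M χ) :
    ∃ S : K.Sml M χ, Q.1 ≤ S.1 ∧ R.1 ≤ S.1 := by
  have hχ : ℵ₀ ≤ χ := (ls_spec (K := K)).1.trans hLS
  obtain ⟨S, hS, _⟩ := exists_ub hM hLS {Q, R} (by
    refine Cardinal.mk_insert_le.trans ?_
    rw [Cardinal.mk_singleton]
    exact (add_le_add (Cardinal.one_le_aleph0.trans hχ)
      (Cardinal.one_le_aleph0.trans hχ)).trans (Cardinal.add_eq_self hχ).le) ∅ (by simp)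
  exact ⟨S, hS Q (by simp), hS R (by simp)⟩

/-- The isomorphisms of closures over `Q` which extend to all larger models of size at
most `θ`. -/
def Pers (θ : Cardinal.{w}) (Q : K.Sml M χ) :
    Set (K.clOver f₁ a₁ Q.1 ≃[L] K.clOver f₂ a₂ Q.1) :=
  {e | e ∈ K.Isos f₁ a₁ f₂ a₂ Q.1 ∧ ∀ R : K.Sml M θ, Q.1 ≤ R.1 →
    ∃ e' ∈ K.Isos f₁ a₁ f₂ a₂ R.1, Extends e e'}

/-- Persistent isomorphisms exist. -/
theorem exists_pers (hK : K.HasClosures) (hAP : K.Amalgamation) (hLS : K.LS ≤ χ) (hχθ : χ ≤ θ)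
    (hf₁ : K.StrongEmb f₁) (hf₂ : K.StrongEmb f₂) (Q : K.Sml M χ)
    (hcard : #(K.Isos f₁ a₁ f₂ a₂ Q.1) ≤ θ)
    (T : Set (K.clOver f₁ a₁ Q.1 ≃[L] K.clOver f₂ a₂ Q.1))
    (hT : ∀ R : K.Sml M θ, Q.1 ≤ R.1 → ∃ e ∈ K.Isos f₁ a₁ f₂ a₂ R.1,
      ∃ e' ∈ K.Isos f₁ a₁ f₂ a₂ Q.1, e' ∈ T ∧ Extends e' e) :
    ∃ e' ∈ T, e' ∈ Pers (f₁ := f₁) (a₁ := a₁) (f₂ := f₂) (a₂ := a₂) θ Q := by
  classical
  have hM : K.Mem M := hf₁.mem_left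
  have hθ : ℵ₀ ≤ θ := ((ls_spec (K := K)).1.trans hLS).trans hχθ
  by_contra hcon
  push Not at hcon
  let Q' : K.Sml M θ := ⟨Q.1, Q.2.1, Q.2.2.trans hχθ⟩
  have h1 : ∀ e : K.Isos f₁ a₁ f₂ a₂ Q.1, ∃ R : K.Sml M θ, Q.1 ≤ R.1 ∧
      (e.1 ∈ T → ∀ e'' ∈ K.Isos f₁ a₁ f₂ a₂ R.1, ¬ Extends e.1 e'') := by
    intro e
    by_cases he : e.1 ∈ T
    · have h2 := hcon e.1 he
      unfold Pers at h2
      simp only [Set.mem_ofPred_eq, not_and, not_forall, not_exists] at h2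
      obtain ⟨R, hR, h3⟩ := h2 e.2
      exact ⟨R, hR, fun _ e'' he'' h4 => h3 e'' he'' h4⟩
    · exact ⟨Q', le_rfl, fun h => absurd h he⟩
  choose R hQR hR using h1
  obtain ⟨S, hS, _⟩ := exists_ub hM (hLS.trans hχθ) (insert Q' (Set.range R)) (by
    refine Cardinal.mk_insert_le.trans ?_
    exact (add_le_add (Cardinal.mk_range_le.trans hcard)
      (Cardinal.one_le_aleph0.trans hθ)).trans (Cardinal.add_eq_self hθ).le) ∅ (by simp)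
  have hQS : Q.1 ≤ S.1 := hS Q' (Set.mem_insert _ _)
  obtain ⟨e, he, e', he'I, he'T, hext⟩ := hT S hQS
  have hRS : (R ⟨e', he'I⟩).1 ≤ S.1 := hS _ (Set.mem_insert_of_mem _ ⟨_, rfl⟩)
  obtain ⟨e₁, he₁, hext₁⟩ := isos_restrict hK hAP hf₁ hf₂ (R ⟨e', he'I⟩).2.1 S.2.1 hRS he
  exact hR ⟨e', he'I⟩ he'T e₁ he₁ (Extends.mid hRS hext hext₁)

/-- Persistent isomorphisms extend to persistent isomorphisms. -/
theorem pers_extend (hK : K.HasClosures) (hAP : K.Amalgamation) (hLS : K.LS ≤ χ) (hχθ : χ ≤ θ)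
    (hf₁ : K.StrongEmb f₁) (hf₂ : K.StrongEmb f₂) {Q R : K.Sml M χ} (hQR : Q.1 ≤ R.1)
    (hcard : #(K.Isos f₁ a₁ f₂ a₂ R.1) ≤ θ)
    {e : K.clOver f₁ a₁ Q.1 ≃[L] K.clOver f₂ a₂ Q.1} (he : e ∈ Pers θ Q) :
    ∃ e' ∈ Pers θ R, Extends e e' := by
  obtain ⟨e', heT, he'⟩ := exists_pers hK hAP hLS hχθ hf₁ hf₂ R hcard {e' | Extends e e'} (by
    intro S hS
    obtain ⟨u, hu, hext⟩ := he.2 S (hQR.trans hS)
    obtain ⟨e', he', hext'⟩ := isos_restrict hK hAP hf₁ hf₂ R.2.1 S.2.1 hS hu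
    exact ⟨u, hu, e', he', Extends.mid hS hext hext', hext'⟩)
  exact ⟨e', he', heT⟩

/-- The restriction of a persistent isomorphism is persistent. -/
theorem pers_restrict (hK : K.HasClosures) (hAP : K.Amalgamation) (hLS : K.LS ≤ χ) (hχθ : χ ≤ θ)
    (hf₁ : K.StrongEmb f₁) (hf₂ : K.StrongEmb f₂) {Q R : K.Sml M χ} (hQR : Q.1 ≤ R.1)
    {e : K.clOver f₁ a₁ R.1 ≃[L] K.clOver f₂ a₂ R.1} (he : e ∈ Pers θ R) :
    ∃ e' ∈ Pers θ Q, Extends e' e := by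
  have hM : K.Mem M := hf₁.mem_left
  obtain ⟨e', he', hext⟩ := isos_restrict hK hAP hf₁ hf₂ Q.2.1 R.2.1 hQR he.1
  refine ⟨e', ⟨he', ?_⟩, hext⟩
  intro S hQS
  obtain ⟨U, hRU, hSU⟩ := exists_ub_two hM (hLS.trans hχθ)
    (⟨R.1, R.2.1, R.2.2.trans hχθ⟩ : K.Sml M θ) S
  obtain ⟨u, hu, hextu⟩ := he.2 U hRU
  obtain ⟨s, hs, hexts⟩ := isos_restrict hK hAP hf₁ hf₂ S.2.1 U.2.1 hSU hu
  refine ⟨s, hs, ?_⟩
  exact Extends.mid hSU (Extends.trans hQR hext hextu) hexts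

theorem isos_comp {Q : L.Substructure M} {e₁ e₂ e₃ : K.clOver f₁ a₁ Q ≃[L] K.clOver f₂ a₂ Q}
    (h₁ : e₁ ∈ K.Isos f₁ a₁ f₂ a₂ Q) (h₂ : e₂ ∈ K.Isos f₁ a₁ f₂ a₂ Q)
    (h₃ : e₃ ∈ K.Isos f₁ a₁ f₂ a₂ Q) : e₁.comp (e₂.symm.comp e₃) ∈ K.Isos f₁ a₁ f₂ a₂ Q := by
  constructor
  · intro m hm x hx
    have h4 : e₃ x = e₂ x := Subtype.ext (by rw [h₃.1 m hm x hx, h₂.1 m hm x hx])
    show (e₁ (e₂.symm (e₃ x)) : N₂) = f₂ m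
    rw [h4, Language.Equiv.symm_apply_apply]
    exact h₁.1 m hm x hx
  · intro x hx
    have h4 : e₃ x = e₂ x := Subtype.ext (by rw [h₃.2 x hx, h₂.2 x hx])
    show (e₁ (e₂.symm (e₃ x)) : N₂) = a₂
    rw [h4, Language.Equiv.symm_apply_apply]
    exact h₁.2 x hx

theorem extends_comp {Q R : L.Substructure M} (hQR : Q ≤ R)
    {e₁ e₂ e₃ : K.clOver f₁ a₁ Q ≃[L] K.clOver f₂ a₂ Q}
    {u₁ u₂ u₃ : K.clOver f₁ a₁ R ≃[L] K.clOver f₂ a₂ R}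
    (h₁ : Extends e₁ u₁) (h₂ : Extends e₂ u₂) (h₃ : Extends e₃ u₃) :
    Extends (e₁.comp (e₂.symm.comp e₃)) (u₁.comp (u₂.symm.comp u₃)) := by
  intro x y hxy
  show (e₁ (e₂.symm (e₃ x)) : N₂) = u₁ (u₂.symm (u₃ y))
  apply h₁
  -- `e₂.symm (e₃ x) = u₂.symm (u₃ y)` in `N₁`
  have h4 : (e₃ x : N₂) = u₃ y := h₃ x y hxy
  have hz : ((e₂.symm (e₃ x) : K.clOver f₁ a₁ Q) : N₁) ∈ K.clOver f₁ a₁ R :=
    clOver_mono hQR (e₂.symm (e₃ x)).2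
  have h5 := h₂ (e₂.symm (e₃ x)) ⟨_, hz⟩ rfl
  rw [Language.Equiv.apply_symm_apply, h4] at h5
  have h6 : u₃ y = u₂ ⟨_, hz⟩ := Subtype.ext h5
  rw [h6, Language.Equiv.symm_apply_apply]

theorem pers_comp {Q : K.Sml M χ}
    {e₁ e₂ e₃ : K.clOver f₁ a₁ Q.1 ≃[L] K.clOver f₂ a₂ Q.1}
    (h₁ : e₁ ∈ Pers θ Q) (h₂ : e₂ ∈ Pers θ Q) (h₃ : e₃ ∈ Pers θ Q) :
    e₁.comp (e₂.symm.comp e₃) ∈ Pers θ Q := by
  refine ⟨isos_comp h₁.1 h₂.1 h₃.1, ?_⟩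
  intro R hR
  obtain ⟨u₁, hu₁, he₁⟩ := h₁.2 R hR
  obtain ⟨u₂, hu₂, he₂⟩ := h₂.2 R hR
  obtain ⟨u₃, hu₃, he₃⟩ := h₃.2 R hR
  exact ⟨_, isos_comp hu₁ hu₂ hu₃, extends_comp hR he₁ he₂ he₃⟩

end context

end Pool.Agent.H81.FB
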